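import Pool.Agent.R3B.StmtsB

/-!
# Squad R3B (MP_be01ff_an), row NRM: the norm of `f(|x|)/|x|`
-/

set_option autoImplicit false

namespace Pool.Agent.R3B.H27

open Pool.Agent.R3B Pool.Agent.BE01F
open Set MeasureTheory
open scoped ENNReal

lemma nrm_meas_Bl (ℓ : ℝ) : MeasurableSet (Bl ℓ) := by
  have : Bl ℓ = (fun x : E 3 => ‖x‖) ⁻¹' Iio ℓ := rfl
  rw [this]
  exact measurableSet_Iio.preimage measurable_norm

lemma nrm_aem (ℓ : ℝ) (f : ℝ → ℝ) (hf : ContinuousOn f (Icc 0 ℓ)) :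
    AEStronglyMeasurable (rf f) (vol (Bl ℓ)) := by
  have h1 : ContinuousOn (fun x : E 3 => f ‖x‖) (Bl ℓ) := by
    refine hf.comp continuous_norm.continuousOn (fun x hx => ?_)
    exact ⟨norm_nonneg x, le_of_lt hx⟩
  have h2 : AEMeasurable (fun x : E 3 => f ‖x‖) (vol (Bl ℓ)) :=
    h1.aemeasurable (nrm_meas_Bl ℓ)
  exact (h2.div measurable_norm.aemeasurable).aestronglyMeasurable

lemma nrm_int (ℓ : ℝ) (f : ℝ → ℝ) (hf : ContinuousOn f (Icc 0 ℓ)) :
    Integrable (fun x => rf f x ^ 2) (vol (Bl ℓ)) := by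
  have h0 : IntegrableOn (fun x => rf f x ^ 2) (Bl ℓ) volume := by
    rw [← integrable_indicator_iff (nrm_meas_Bl ℓ)]
    have he : (Bl ℓ).indicator (fun x => rf f x ^ 2) =
        fun x : E 3 => (fun r : ℝ => (Iio ℓ).indicator (fun r => (f r / r) ^ 2) r) ‖x‖ := by
      funext x
      by_cases hx : x ∈ Bl ℓ
      · rw [indicator_of_mem hx]
        have : ‖x‖ ∈ Iio ℓ := hx
        simp only [indicator_of_mem this]
        rfl
      · rw [indicator_of_notMem hx]
        have : ‖x‖ ∉ Iio ℓ := hx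
        simp only [indicator_of_notMem this]
    rw [he, integrable_fun_norm_addHaar (μ := (volume : Measure (E 3)))]
    have hd : Module.finrank ℝ (E 3) - 1 = 2 := by
      rw [finrank_euclideanSpace_fin]
    rw [hd]
    have h1 : IntegrableOn (fun r => f r ^ 2) (Ioo 0 ℓ) volume :=
      ((hf.pow 2).integrableOn_Icc).mono_set Ioo_subset_Icc_self
    have h2 : IntegrableOn ((Ioo 0 ℓ).indicator fun r => f r ^ 2) (Ioi 0) volume :=
      ((integrable_indicator_iff measurableSet_Ioo).mpr h1).integrableOn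
    refine h2.congr_fun (fun r hr => ?_) measurableSet_Ioi
    have hr' : (0 : ℝ) < r := hr
    by_cases hrl : r < ℓ
    · have h3 : r ∈ Ioo 0 ℓ := ⟨hr', hrl⟩
      have h4 : r ∈ Iio ℓ := hrl
      simp only [indicator_of_mem h3, indicator_of_mem h4, smul_eq_mul]
      field_simp
    · have h3 : r ∉ Ioo 0 ℓ := fun h => hrl h.2
      have h4 : r ∉ Iio ℓ := hrl
      simp only [indicator_of_notMem h3, indicator_of_notMem h4, smul_zero]
  exact h0

theorem nrm (hB : BinStmt) : NrmStmt := by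
  intro ℓ f hℓ hf
  have hm : MemLp (rf f) 2 (vol (Bl ℓ)) :=
    (memLp_two_iff_integrable_sq (nrm_aem ℓ f hf)).mpr (nrm_int ℓ f hf)
  refine ⟨hm, ?_⟩
  have h1 : intg (Bl ℓ) (fun x => rf f x ^ 2) = 4 * Real.pi * ∫ r in (0 : ℝ)..ℓ, f r ^ 2 := by
    have h2 := hB ℓ (fun r => (f r / r) ^ 2) hℓ.le
    have h3 : ∫ r in (0 : ℝ)..ℓ, r ^ 2 * (f r / r) ^ 2 = ∫ r in (0 : ℝ)..ℓ, f r ^ 2 := by
      refine intervalIntegral.integral_congr_ae ?_
      refine Filter.Eventually.of_forall (fun r hr => ?_)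
      rw [uIoc_of_le hℓ.le] at hr
      have hr' : r ≠ 0 := hr.1.ne'
      field_simp
    rw [h3] at h2
    exact h2
  change eLpNorm (rf f) 2 (vol (Bl ℓ)) = _
  rw [hm.eLpNorm_eq_integral_rpow_norm two_ne_zero ENNReal.ofNat_ne_top]
  congr 1
  rw [ENNReal.toReal_ofNat, ← h1, Real.sqrt_eq_rpow, one_div]
  congr 1
  refine integral_congr_ae (Filter.Eventually.of_forall (fun x => ?_))
  change ‖rf f x‖ ^ (2 : ℝ) = rf f x ^ 2
  rw [Real.rpow_two, Real.norm_eq_abs, sq_abs]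

end Pool.Agent.R3B.H27
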